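import Pool.Agent.H97.PK.Targets

/-!
# MP_9d526a_co, GRO: growth of unions under a common dilation of the radii
-/

open MeasureTheory Set Metric
open scoped ENNReal Pointwise

namespace Pool.Agent.H89.PK

open Pool.Agent.H97.PK

theorem smul_closedBall_eq {d : ℕ} {t : ℝ} (ht : 0 < t) (c : E d) (r : ℝ) :
    closedBall c (t * r) = t • closedBall (t⁻¹ • c) r := by
  ext x
  rw [Set.mem_smul_set_iff_inv_smul_mem₀ ht.ne', mem_closedBall, mem_closedBall, dist_eq_norm,
    dist_eq_norm, ← smul_sub, norm_smul, Real.norm_eq_abs, abs_of_pos (inv_pos.2 ht),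
    inv_mul_le_iff₀ ht]

theorem pf_gro (hKPR : T_KPR) : T_GRO := by
  intro d hd ι _ p ρ t ht
  have ht0 : 0 < t := lt_of_lt_of_le one_pos ht
  have h1 : vU p (fun i => t * ρ i) = ENNReal.ofReal (t ^ d) * vU (fun i => t⁻¹ • p i) ρ := by
    unfold vU
    have h2 : (⋃ i, closedBall (p i) (t * ρ i)) = t • ⋃ i, closedBall (t⁻¹ • p i) (ρ i) := by
      rw [Set.smul_set_iUnion]
      exact Set.iUnion_congr fun i => smul_closedBall_eq ht0 _ _
    rw [h2, Measure.addHaar_smul, finrank_euclideanSpace_fin, abs_of_nonneg (pow_nonneg ht0.le d)]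
  rw [h1]
  refine mul_le_mul_right (hKPR d hd ι p (fun i => t⁻¹ • p i) ?_ ?_ ρ) _
  · intro i j
    rw [dist_smul₀, Real.norm_eq_abs, abs_of_pos (inv_pos.2 ht0)]
    exact mul_le_of_le_one_left dist_nonneg (inv_le_one_of_one_le₀ ht)
  · let L : E d →ₗ[ℝ] (E d × E d) := LinearMap.prod LinearMap.id (t⁻¹ • LinearMap.id)
    have hsub : vectorSpan ℝ (range fun i => (p i, t⁻¹ • p i)) ≤ LinearMap.range L := by
      rw [vectorSpan_def]
      refine Submodule.span_le.2 ?_
      rintro _ ⟨_, ⟨i, rfl⟩, _, ⟨j, rfl⟩, rfl⟩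
      refine ⟨p i - p j, ?_⟩
      show (p i - p j, t⁻¹ • (p i - p j)) = (p i, t⁻¹ • p i) - (p j, t⁻¹ • p j)
      rw [smul_sub]
      rfl
    calc Module.finrank ℝ (vectorSpan ℝ (range fun i => (p i, t⁻¹ • p i)))
        ≤ Module.finrank ℝ (LinearMap.range L) := Submodule.finrank_mono hsub
      _ ≤ Module.finrank ℝ (E d) := LinearMap.finrank_range_le L
      _ = d := finrank_euclideanSpace_fin
      _ ≤ d + 2 := by omega

end Pool.Agent.H89.PK
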