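import Pool.Agent.H3.PK.Targets

/-!
# WU: upper bound for the weights
-/

set_option autoImplicit false

open MeasureTheory Metric Set

namespace Pool.Agent.H89.PK

open Pool.Agent.H3.PK

lemma factor (a : ℕ) (x : ℝ) (hx : 0 ≤ x) :
    (x / a) ^ ((a : ℝ) / 2) ≤ Real.exp (√((a : ℝ) * x) - a) := by
  rcases Nat.eq_zero_or_pos a with h | h
  · subst h
    simp
  · have ha : (0 : ℝ) < a := by exact_mod_cast h
    have hu : 0 ≤ x / a := div_nonneg hx ha.le
    have h1 : (x / a) ^ ((a : ℝ) / 2) = (√(x / a)) ^ (a : ℝ) := by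
      rw [Real.sqrt_eq_rpow, ← Real.rpow_mul hu]
      congr 1
      ring
    have h2 : √(x / a) ≤ Real.exp (√(x / a) - 1) := by
      have := Real.add_one_le_exp (√(x / a) - 1)
      linarith
    rw [h1]
    calc (√(x / a)) ^ (a : ℝ) ≤ (Real.exp (√(x / a) - 1)) ^ (a : ℝ) :=
          Real.rpow_le_rpow (Real.sqrt_nonneg _) h2 ha.le
      _ = Real.exp ((√(x / a) - 1) * a) := by rw [← Real.exp_mul]
      _ = Real.exp (√((a : ℝ) * x) - a) := by
          congr 1
          have : √(x / a) * a = √((a : ℝ) * x) := by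
            have e : (a : ℝ) * x = (x / a) * (a : ℝ) ^ 2 := by field_simp
            rw [e, Real.sqrt_mul hu, Real.sqrt_sq ha.le]
          rw [sub_mul, this, one_mul]

theorem wu : T_WU := by
  intro n N α hα z
  have hz : ∑ i, ‖(z : E n) i‖ ^ 2 = 1 := by
    have h := z.2
    rw [mem_sphere_zero_iff_norm] at h
    have h2 := EuclideanSpace.norm_sq_eq (z : E n)
    rw [h] at h2
    simpa using h2.symm
  unfold wt
  have hstep : ∏ i, ((N : ℝ) * ‖(z : E n) i‖ ^ 2 / α i) ^ ((α i : ℝ) / 2) ≤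
      ∏ i, Real.exp (√((α i : ℝ) * ((N : ℝ) * ‖(z : E n) i‖ ^ 2)) - α i) := by
    refine Finset.prod_le_prod (fun i _ => ?_) (fun i _ => ?_)
    · exact Real.rpow_nonneg (by positivity) _
    · exact factor (α i) _ (by positivity)
  refine hstep.trans ?_
  rw [← Real.exp_sum]
  refine Real.exp_le_exp.2 (le_of_eq ?_)
  have hN : ∑ i, (α i : ℝ) = N := by exact_mod_cast hα
  have hx : ∑ i, (N : ℝ) * ‖(z : E n) i‖ ^ 2 = N := by
    rw [← Finset.mul_sum, hz, mul_one]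
  have hterm : ∀ i, (√(α i : ℝ) - √((N : ℝ) * ‖(z : E n) i‖ ^ 2)) ^ 2 =
      (α i : ℝ) + (N : ℝ) * ‖(z : E n) i‖ ^ 2 -
        2 * √((α i : ℝ) * ((N : ℝ) * ‖(z : E n) i‖ ^ 2)) := by
    intro i
    have h1 : (0 : ℝ) ≤ α i := Nat.cast_nonneg _
    have h2 : (0 : ℝ) ≤ (N : ℝ) * ‖(z : E n) i‖ ^ 2 := by positivity
    rw [Real.sqrt_mul h1, sub_sq, Real.sq_sqrt h1, Real.sq_sqrt h2]
    ring
  rw [Finset.sum_congr rfl (fun i _ => hterm i), Finset.sum_sub_distrib, Finset.sum_sub_distrib,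
    Finset.sum_add_distrib, ← Finset.mul_sum Finset.univ _ (2 : ℝ), hN, hx]
  ring

end Pool.Agent.H89.PK
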